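import Pool.Agent.Lib.helper20.Irr

/-!
# MP_7f565b_co: Q1 has the answer yes

A graph on 11 vertices that is `γ`-edge-critical but not `ir`-edge-critical.
-/

namespace Pool.Agent.Results.MP_7f565b_co.Q1

open SimpleGraph Pool.Agent.Lib.helper20.Irr

def E : List (Fin 11 × Fin 11) :=
  [(1, 3), (3, 4), (1, 5), (2, 6), (4, 6), (1, 7), (2, 7), (3, 7), (4, 7), (5, 7), (1, 8), (3, 8), (5, 8), (6, 8), (0, 9), (1, 9), (3, 9), (2, 10), (3, 10), (4, 10)]

def H : SimpleGraph (Fin 11) where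
  Adj a b := (a, b) ∈ E ∨ (b, a) ∈ E
  symm := ⟨fun _ _ h => h.symm⟩
  loopless := ⟨by decide⟩

def N (a b : Fin 11) : Bool := Nat.testBit 1365905676488929994488582674487005697 (11 * a.1 + b.1)

theorem rep : Rep H N := by
  have : ∀ s w : Fin 11, (w = s ∨ (s, w) ∈ E ∨ (w, s) ∈ E) ↔ N s w = true := by decide +kernel
  exact this

def W (u v : Fin 11) : List (Fin 11) :=
  ([[[], [1, 2, 3], [0, 1, 4], [1, 2, 3], [0, 1, 2], [0, 2, 3], [0, 1, 10], [0, 8, 10], [0, 2, 7], [], [0, 1, 6]],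
   [[1, 2, 3], [], [0, 1, 4], [], [0, 1, 2], [], [0, 1, 10], [], [], [], [0, 1, 6]],
   [[0, 1, 4], [0, 1, 4], [], [0, 3, 8], [0, 1, 2], [0, 2, 3], [], [], [0, 2, 7], [1, 4, 9], []],
   [[1, 2, 3], [], [0, 3, 8], [], [], [0, 2, 3], [0, 3, 7], [], [], [], []],
   [[0, 1, 2], [0, 1, 2], [0, 1, 2], [], [], [2, 5, 9], [], [], [0, 2, 8], [1, 2, 9], []],
   [[0, 2, 3], [], [0, 2, 3], [0, 2, 3], [2, 5, 9], [], [0, 3, 6], [], [], [2, 3, 9], [5, 6, 9]],
   [[0, 1, 10], [0, 1, 10], [], [0, 3, 7], [], [0, 3, 6], [], [0, 3, 7], [], [1, 9, 10], [0, 1, 6]],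
   [[0, 8, 10], [], [], [], [], [], [0, 3, 7], [], [0, 2, 7], [8, 9, 10], [0, 6, 7]],
   [[0, 2, 7], [], [0, 2, 7], [], [0, 2, 8], [], [], [0, 2, 7], [], [2, 7, 9], [0, 7, 8]],
   [[], [], [1, 4, 9], [], [1, 2, 9], [2, 3, 9], [1, 9, 10], [8, 9, 10], [2, 7, 9], [], [1, 6, 9]],
   [[0, 1, 6], [0, 1, 6], [], [], [], [5, 6, 9], [0, 1, 6], [0, 6, 7], [0, 7, 8], [1, 6, 9], []]].getD u.1 []).getD v.1 []

/-- A graph that is `γ`-edge-critical but not `ir`-edge-critical. -/
theorem result : ∃ G : SimpleGraph (Fin 11), EdgeCritical gamma G ∧ ¬ EdgeCritical ir G := by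
  refine ⟨H, fun u v huv hn => ?_, fun h => ?_⟩
  · have k : ∀ u v, N u v = false → domB (plus N u v) (W u v) = true ∧ (W u v).length ≤ 3 := by
      decide +kernel
    have hN : N u v = false := by
      rw [Bool.eq_false_iff, Ne, ← rep]
      exact fun h => h.elim huv.symm hn
    have h1 := gamma_le (rep.plus huv) _ (k u v hN).1
    have h2 := (k u v hN).2
    have h3 := four_le_gamma rep (by decide +kernel) (by decide +kernel) (by decide +kernel)
    omega
  · have h1 := h 0 1 (by decide) (by simp only [H]; decide)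
    have h2 := ir_le rep [1, 7, 8] (by decide +kernel) (by decide +kernel)
    have h3 := le_ir (rep.plus (u := 0) (v := 1) (by decide)) 3 (by decide)
      (by decide +kernel) (by decide +kernel) (fun h => absurd h (by decide))
    simp only [List.length] at h2
    omega

end Pool.Agent.Results.MP_7f565b_co.Q1
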