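import Pool.Agent.Lib.helper20.Irr

/-!
# MP_7f565b_co: Q2 has the answer yes

A graph on 10 vertices that is `ir`-edge-critical but not `γ`-edge-critical.
-/

namespace Pool.Agent.Results.MP_7f565b_co.Q2

open SimpleGraph Pool.Agent.Lib.helper20.Irr

def E : List (Fin 10 × Fin 10) :=
  [(0, 4), (3, 5), (2, 6), (5, 6), (1, 7), (6, 7), (1, 8), (5, 8), (7, 8), (2, 9), (3, 9), (4, 9), (7, 9), (8, 9)]

def H : SimpleGraph (Fin 10) where
  Adj a b := (a, b) ∈ E ∨ (b, a) ∈ E
  symm := ⟨fun _ _ h => h.symm⟩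
  loopless := ⟨by decide⟩

def N (a b : Fin 10) : Bool := Nat.testBit 1144982033304344118540731025425 (10 * a.1 + b.1)

theorem rep : Rep H N := by
  have : ∀ s w : Fin 10, (w = s ∨ (s, w) ∈ E ∨ (w, s) ∈ E) ↔ N s w = true := by decide +kernel
  exact this

def W (u v : Fin 10) : List (Fin 10) :=
  ([[[], [0, 5, 9], [0, 3, 7], [0, 2, 8], [], [0, 1, 4], [0, 1, 4], [0, 4, 5], [0, 4, 6], [0, 7, 8]],
   [[0, 5, 9], [], [1, 3, 9], [1, 2, 9], [1, 2, 8], [0, 5, 9], [0, 6, 9], [], [], [0, 5, 9]],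
   [[0, 3, 7], [1, 3, 9], [], [0, 2, 8], [1, 4, 5], [0, 5, 7], [], [0, 3, 7], [0, 5, 8], []],
   [[0, 2, 8], [1, 2, 9], [0, 2, 8], [], [1, 4, 6], [], [0, 6, 7], [0, 6, 7], [0, 2, 8], []],
   [[], [1, 2, 8], [1, 4, 5], [1, 4, 6], [], [4, 7, 9], [4, 8, 9], [2, 7, 8], [3, 7, 8], []],
   [[0, 1, 4], [0, 5, 9], [0, 5, 7], [], [4, 7, 9], [], [], [0, 7, 9], [], [0, 7, 8]],
   [[0, 1, 4], [0, 6, 9], [], [0, 6, 7], [4, 8, 9], [], [], [], [0, 8, 9], [0, 7, 8]],
   [[0, 4, 5], [], [0, 3, 7], [0, 6, 7], [2, 7, 8], [0, 7, 9], [], [], [], []],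
   [[0, 4, 6], [], [0, 5, 8], [0, 2, 8], [3, 7, 8], [], [0, 8, 9], [], [], []],
   [[0, 7, 8], [0, 5, 9], [], [], [], [0, 7, 8], [0, 7, 8], [], [], []]].getD u.1 []).getD v.1 []

/-- A graph that is `ir`-edge-critical but not `γ`-edge-critical. -/
theorem result : ∃ G : SimpleGraph (Fin 10), EdgeCritical ir G ∧ ¬ EdgeCritical gamma G := by
  refine ⟨H, fun u v huv hn => ?_, fun h => ?_⟩
  · have k : ∀ u v, N u v = false → irrB (plus N u v) (W u v) = true ∧
        extB (plus N u v) (W u v) = false ∧ (W u v).length ≤ 3 := by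
      decide +kernel
    have hN : N u v = false := by
      rw [Bool.eq_false_iff, Ne, ← rep]
      exact fun h => h.elim huv.symm hn
    have h1 := ir_le (rep.plus huv) _ (k u v hN).1 (k u v hN).2.1
    have h2 := (k u v hN).2.2
    have h3 := le_ir rep 4 (by decide) (by decide +kernel) (by decide +kernel)
      (fun _ => by decide +kernel)
    omega
  · have h1 := h 4 7 (by decide) (by simp only [H]; decide)
    have h2 := gamma_le rep [0, 1, 2, 3] (by decide +kernel)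
    have h3 := four_le_gamma (rep.plus (u := 4) (v := 7) (by decide))
      (by decide +kernel) (by decide +kernel) (by decide +kernel)
    simp only [List.length] at h2
    omega

end Pool.Agent.Results.MP_7f565b_co.Q2
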